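import Mathlib
import Pool.Agent.Lib.MP_f9aece_nt_j4.Final

/-!
# One-sided sharpness of the moments of zeta on the critical line at the fourth moment

Let `M(β, T)` be the moment `∫₀¹ |ζ(1/2 + ix + iuT)|^β du` divided by the conjectured size
`(log T)^(β²/4)`, and let `c(4) = 1/(2π²)` be the constant of the fourth moment.  For every real `x`
and every `ε > 0` one has `(β - 4) (M(β, T) - c(4)) ≥ -ε |β - 4|` for all `β` close to `4` and all
large `T`, uniformly: just below `4` the moments are at most `c(4) + ε`, just above `4` they are at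
least `c(4) - ε`, times the conjectured size.  No hypothesis is used.
-/

set_option autoImplicit false

namespace Pool.Agent.Results.MP_f9aece_nt.JointFour

open Filter Topology Set Complex MeasureTheory

/-- The moment `E|ζ(1/2 + ix + iωT)|^β` with `ω` uniform on `[0,1]`. -/
noncomputable def moment (β x T : ℝ) : ℝ :=
  ∫ u in (0 : ℝ)..1, ‖riemannZeta (1 / 2 + I * x + I * u * T)‖ ^ β

/-- **Main result.** One-sided sharpness of the normalised moments at `β = 4`, jointly in `β`
and `T`. -/
theorem result (x ε : ℝ) (hε : 0 < ε) :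
    ∃ η : ℝ, 0 < η ∧ ∃ T₀ : ℝ, ∀ β T : ℝ, |β - 4| < η → T₀ ≤ T →
      -(ε * |β - 4|) ≤ (β - 4) *
        (moment β x T / Real.log T ^ (β ^ 2 / 4) - 1 / (2 * Real.pi ^ 2)) := by
  obtain ⟨η1, hη1, T1, h1⟩ := Pool.Agent.Lib.J4.upperFour_final x ε hε
  obtain ⟨η2, hη2, T2, h2⟩ := Pool.Agent.Lib.J4.lowerFour_final x ε hε
  refine ⟨min η1 η2, lt_min hη1 hη2, max (Real.exp 1) (max T1 T2), fun β T hβ hT => ?_⟩
  have ha : |β - 4| < η1 := hβ.trans_le (min_le_left _ _)
  have hb : |β - 4| < η2 := hβ.trans_le (min_le_right _ _)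
  have hTe : Real.exp 1 ≤ T := (le_max_left _ _).trans hT
  have hTa : T1 ≤ T := ((le_max_left _ _).trans (le_max_right _ _)).trans hT
  have hTb : T2 ≤ T := ((le_max_right _ _).trans (le_max_right _ _)).trans hT
  have hTp : 0 < T := (Real.exp_pos 1).trans_le hTe
  have hlog : 1 ≤ Real.log T := by rwa [Real.le_log_iff_exp_le hTp]
  have hL : 0 < Real.log T ^ (β ^ 2 / 4) := by positivity
  have e : Pool.Agent.Lib.MP_f9aece_nt.mom β x T = moment β x T := rfl
  rcases le_total β 4 with hc | hc
  · have h3 := h1 β (by rw [abs_lt] at ha; linarith) hc T hTa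
    rw [e] at h3
    have h4 : moment β x T / Real.log T ^ (β ^ 2 / 4) - 1 / (2 * Real.pi ^ 2) ≤ ε := by
      have : moment β x T / Real.log T ^ (β ^ 2 / 4) ≤ 1 / (2 * Real.pi ^ 2) + ε := by
        rwa [div_le_iff₀ hL]
      linarith
    rw [abs_of_nonpos (by linarith)]
    have h5 := mul_le_mul_of_nonpos_left h4 (show β - 4 ≤ 0 by linarith)
    linarith
  · have h3 := h2 β hc (by rw [abs_lt] at hb; linarith) T hTb
    rw [e] at h3
    have h4 : -ε ≤ moment β x T / Real.log T ^ (β ^ 2 / 4) - 1 / (2 * Real.pi ^ 2) := by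
      have : 1 / (2 * Real.pi ^ 2) - ε ≤ moment β x T / Real.log T ^ (β ^ 2 / 4) := by
        rwa [le_div_iff₀ hL]
      linarith
    rw [abs_of_nonneg (by linarith)]
    have h5 := mul_le_mul_of_nonneg_left h4 (show 0 ≤ β - 4 by linarith)
    linarith

end Pool.Agent.Results.MP_f9aece_nt.JointFour
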