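import Mathlib
import Pool.Agent.Lib.MP_f9aece_nt_h24.NearTwo
import Pool.Agent.Lib.MP_f9aece_nt_h24.UpperTwoPlus
import Pool.Agent.Lib.MP_f9aece_nt_h5.LowerTwoPlus
import Pool.Agent.Lib.MP_f9aece_nt_h5.UpperTwo

/-!
# Joint asymptotics of the moments of zeta on the critical line near the second moment

For every real `x`, the quotient of the moment `∫₀¹ |ζ(1/2 + ix + iuT)|^β du` by the conjectured
size `(log T)^(β²/4)` tends to `1` as `β → 2` (from both sides) and `T → ∞` jointly, with no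
relation between the speeds of `β` and `T`.  No hypothesis is used.
-/

set_option autoImplicit false

namespace Pool.Agent.Results.MP_f9aece_nt.JointTwo

open Filter Topology Set Complex MeasureTheory

/-- The moment `E|ζ(1/2 + ix + iωT)|^β` with `ω` uniform on `[0,1]`. -/
noncomputable def moment (β x T : ℝ) : ℝ :=
  ∫ u in (0 : ℝ)..1, ‖riemannZeta (1 / 2 + I * x + I * u * T)‖ ^ β

/-- **Main result.** The joint limit of moment over conjectured size as `β → 2`, `T → ∞`. -/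
theorem result (x : ℝ) :
    Tendsto (fun p : ℝ × ℝ => moment p.1 x p.2 / Real.log p.2 ^ (p.1 ^ 2 / 4))
      (𝓝 (2 : ℝ) ×ˢ atTop) (𝓝 1) := by
  rw [Metric.tendsto_nhds]
  intro ε hε
  have hε2 : 0 < ε / 2 := by positivity
  obtain ⟨b1, hb1, T1, h1⟩ := Pool.Agent.Lib.MP_f9aece_nt_h97.lower_two_minus x (ε / 2) hε2
  obtain ⟨b2, hb2, T2, h2⟩ := Pool.Agent.Lib.MP_f9aece_nt_h5.lower_two_plus x (ε / 2) hε2
  obtain ⟨b3, hb3, T3, h3⟩ := Pool.Agent.Lib.MP_f9aece_nt_h5.upper_uniform_two x (ε / 2) hε2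
  obtain ⟨b4, hb4, T4, h4⟩ := Pool.Agent.Lib.MP_f9aece_nt_h97.upper_two_plus x (ε / 2) hε2
  have hb : ∀ᶠ β : ℝ in 𝓝 (2 : ℝ), 2 - b1 ≤ β ∧ β ≤ 2 + b2 ∧ 2 - b3 ≤ β ∧ β ≤ 2 + b4 := by
    filter_upwards [Icc_mem_nhds (by linarith : 2 - b1 < 2) (by linarith : (2 : ℝ) < 2 + b2),
      Icc_mem_nhds (by linarith : 2 - b3 < 2) (by linarith : (2 : ℝ) < 2 + b4)] with β p q
    exact ⟨p.1, p.2, q.1, q.2⟩
  have hT : ∀ᶠ T : ℝ in atTop, T1 ≤ T ∧ T2 ≤ T ∧ T3 ≤ T ∧ T4 ≤ T ∧ Real.exp 1 ≤ T := by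
    filter_upwards [eventually_ge_atTop T1, eventually_ge_atTop T2, eventually_ge_atTop T3,
      eventually_ge_atTop T4, eventually_ge_atTop (Real.exp 1)] with T a b c d e
    exact ⟨a, b, c, d, e⟩
  filter_upwards [hb.prod_mk hT] with p hp
  obtain ⟨⟨p1, p2, p3, p4⟩, t1, t2, t3, t4, t5⟩ := hp
  have e : Pool.Agent.Lib.MP_f9aece_nt.mom p.1 x p.2 = moment p.1 x p.2 := rfl
  have hlow : (1 - ε / 2) * Real.log p.2 ^ (p.1 ^ 2 / 4) ≤ moment p.1 x p.2 := by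
    rw [← e]
    rcases le_total p.1 2 with hc | hc
    · exact h1 p.1 p1 hc p.2 t1
    · exact h2 p.1 hc p2 p.2 t2
  have hup : moment p.1 x p.2 ≤ (1 + ε / 2) * Real.log p.2 ^ (p.1 ^ 2 / 4) := by
    rw [← e]
    rcases le_total p.1 2 with hc | hc
    · exact h3 p.1 p3 hc p.2 t3
    · exact h4 p.1 hc p4 p.2 t4
  have hTp : 0 < p.2 := (Real.exp_pos 1).trans_le t5
  have hlog : 1 ≤ Real.log p.2 := by rwa [Real.le_log_iff_exp_le hTp]
  have hL : 0 < Real.log p.2 ^ (p.1 ^ 2 / 4) := by positivity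
  rw [Real.dist_eq, abs_lt]
  constructor
  · have : 1 - ε / 2 ≤ moment p.1 x p.2 / Real.log p.2 ^ (p.1 ^ 2 / 4) := by
      rwa [le_div_iff₀ hL]
    linarith
  · have : moment p.1 x p.2 / Real.log p.2 ^ (p.1 ^ 2 / 4) ≤ 1 + ε / 2 := by
      rwa [div_le_iff₀ hL]
    linarith

end Pool.Agent.Results.MP_f9aece_nt.JointTwo
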