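import Mathlib
import Pool.Agent.Lib.MP_f9aece_nt_mt.All

/-!
All moments of the randomly shifted zeta function averaged over mesoscopic windows.

For every kernel `φ` with `(1 + |v|) φ` integrable, integral one and compactly supported Fourier
transform, and for every real `β > 0`, the `β`-th moment of the average of `zeta(1/2 + i x + i ω T)`
over a window of length `H` is asymptotic to `c H^(-β^2/4)`, `c > 0`, when `H → 0` and
`H log T → ∞`, uniformly in all real `x`.
-/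

set_option autoImplicit false

namespace Pool.Agent.Results.MP_f9aece_nt.MesoMoments

open MeasureTheory Complex

/-- the average of `zeta(1/2 + i (y + H v))` over `v` against the kernel `φ` -/
noncomputable def windowAverage (φ : ℝ → ℂ) (H y : ℝ) : ℂ :=
  ∫ v : ℝ, riemannZeta (1 / 2 + I * ((y + H * v : ℝ) : ℂ)) * φ v

/-- the moment of order `β` of the averaged randomly shifted zeta function -/
noncomputable def windowMoment (φ : ℝ → ℂ) (β x T H : ℝ) : ℝ :=
  ∫ u in (0 : ℝ)..1, ‖windowAverage φ H (x + u * T)‖ ^ β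

theorem result : ∀ φ : ℝ → ℂ, Integrable (fun v : ℝ => ((1 + |v| : ℝ) : ℂ) * φ v) →
    ∫ v : ℝ, φ v = 1 →
    (∃ R : ℝ, ∀ r : ℝ, R ≤ |r| → ∫ v : ℝ, φ v * cexp (-(I * ((r * v : ℝ) : ℂ))) = 0) →
    ∀ β : ℝ, 0 < β → ∃ c : ℝ, 0 < c ∧ ∀ ε : ℝ, 0 < ε → ∃ C : ℝ, 0 < C ∧
    ∀ x T H : ℝ, 1 ≤ T → 0 < H → C * H ≤ 1 → C ≤ H * Real.log T →
    |windowMoment φ β x T H - c * H ^ (-(β ^ 2 / 4))| ≤ ε * H ^ (-(β ^ 2 / 4)) := by
  intro φ h1 h2 h3 β hβ
  obtain ⟨R, hR⟩ := h3
  have hadm : Pool.Agent.Lib.MS.Adm φ (max R 1) :=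
    { hR := lt_of_lt_of_le one_pos (le_max_right _ _)
      int := h1
      one := h2
      supp := fun r hr => hR r ((le_max_left _ _).trans hr) }
  obtain ⟨c, hc, h⟩ := Pool.Agent.Lib.MT.xThmTwo φ (max R 1) hadm (β / 2) (by positivity)
  refine ⟨c, hc, fun ε hε => ?_⟩
  obtain ⟨C, hC, h⟩ := h ε hε
  refine ⟨C, hC, fun x T H hT hH hCH hHT => ?_⟩
  have h4 := h H T hH hCH hT hHT x
  have hT0 : T ≠ 0 := by positivity
  have e1 : windowMoment φ β x T H
      = T⁻¹ * ∫ t in x..(x + T), ‖Pool.Agent.Lib.MS.ZW φ H t‖ ^ (2 * (β / 2)) := by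
    unfold windowMoment
    have e2 : 2 * (β / 2) = β := by ring
    rw [e2]
    have e3 := intervalIntegral.integral_comp_mul_add
      (fun t => ‖Pool.Agent.Lib.MS.ZW φ H t‖ ^ β) (a := 0) (b := 1) hT0 x
    simp only [mul_zero, zero_add, mul_one, smul_eq_mul] at e3
    rw [add_comm x T, ← e3]
    refine intervalIntegral.integral_congr fun u _ => ?_
    simp only [windowAverage, Pool.Agent.Lib.MS.ZW]
    rw [add_comm (T * u) x, mul_comm T u]
  have e4 : -((β / 2) ^ 2) = -(β ^ 2 / 4) := by ring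
  rw [e4] at h4
  rw [e1]
  exact h4

end Pool.Agent.Results.MP_f9aece_nt.MesoMoments
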