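import Mathlib
import Pool.Agent.Lib.MP_f9aece_nt_ps.All

/-!
# All real moments of the partial sums of zeta on the critical line

For every real `β > 0` there is a constant `c > 0` such that the moment of order `β` of the partial
sum `∑_{n ≤ N} n^{-s}` at the randomly shifted point `s = 1/2 + i x + i ω T`, `ω` uniform on
`[0, 1]`, is asymptotic to `c (log N)^{β²/4}` when `N → ∞` and `log N / log T → 0`, uniformly in
all real `x`.
-/

set_option autoImplicit false

namespace Pool.Agent.Lib.MP_f9aece_nt_retired.PartialSums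

open MeasureTheory Complex

/-- The partial sum of length `N` of the Dirichlet series of zeta. -/
noncomputable def partialSum (N : ℕ) (s : ℂ) : ℂ := ∑ n ∈ Finset.Icc 1 N, (n : ℂ) ^ (-s)

/-- The moment `E|S_N(1/2 + i x + i ω T)|^β` with `ω` uniform on `[0, 1]`. -/
noncomputable def partialMoment (β x T : ℝ) (N : ℕ) : ℝ :=
  ∫ u in (0 : ℝ)..1, ‖partialSum N (1 / 2 + I * x + I * u * T)‖ ^ β

/-- **Main result.** For every real `β > 0` the moments of order `β` of the partial sums of zeta on
the critical line are asymptotic to a positive constant times `(log N)^(β²/4)`. -/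
theorem result (β : ℝ) (hβ : 0 < β) : ∃ c : ℝ, 0 < c ∧ ∀ ε : ℝ, 0 < ε → ∃ C : ℝ, 0 < C ∧
    ∀ (x T : ℝ) (N : ℕ), C ≤ N → (N : ℝ) ^ C ≤ T →
    |partialMoment β x T N - c * Real.log N ^ (β ^ 2 / 4)| ≤ ε * Real.log N ^ (β ^ 2 / 4) := by
  obtain ⟨c, hc, h⟩ := Pool.Agent.Lib.PS.xSharpPos (β / 2) (by positivity)
  refine ⟨c, hc, fun ε hε => ?_⟩
  obtain ⟨C, hC, h⟩ := h ε hε
  refine ⟨max (Real.exp C) (max C 1), by positivity, fun x T N hN hT => ?_⟩
  have hN1 : Real.exp C ≤ N := (le_max_left _ _).trans hN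
  have hN2 : (1 : ℝ) ≤ N := ((le_max_right _ _).trans (le_max_right _ _)).trans hN
  have hN0 : (0 : ℝ) < N := by linarith
  have hlogN : C ≤ Real.log N := by rwa [Real.le_log_iff_exp_le hN0]
  have hT1 : (N : ℝ) ^ C ≤ T :=
    (Real.rpow_le_rpow_of_exponent_le hN2 ((le_max_left C 1).trans (le_max_right _ _))).trans hT
  have hT2 : 1 ≤ T := (Real.one_le_rpow hN2 hC.le).trans hT1
  have hT0 : 0 < T := by linarith
  have hlogT : C * Real.log N ≤ Real.log T := by
    rw [← Real.log_rpow hN0]
    exact Real.log_le_log (by positivity) hT1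
  have h1 := h (Real.log N) T hlogN hT2 hlogT x
  have e1 : 2 * (β / 2) = β := by ring
  have e2 : (β / 2) ^ 2 = β ^ 2 / 4 := by ring
  rw [e1, e2] at h1
  have e3 : partialMoment β x T N = T⁻¹ * ∫ t in x..(x + T),
      ‖Pool.Agent.Lib.MS.ZS (fun _ => 1) (Real.log N) t‖ ^ β := by
    have e4 := intervalIntegral.integral_comp_mul_add
      (fun t : ℝ => ‖Pool.Agent.Lib.MS.ZS (fun _ => 1) (Real.log N) t‖ ^ β) (a := 0) (b := 1)
      hT0.ne' x
    simp only [mul_zero, zero_add, mul_one, smul_eq_mul] at e4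
    rw [add_comm x T, ← e4]
    unfold partialMoment
    refine intervalIntegral.integral_congr fun u _ => ?_
    have e5 : partialSum N (1 / 2 + I * x + I * u * T)
        = Pool.Agent.Lib.MS.ZS (fun _ => 1) (Real.log N) (T * u + x) := by
      unfold partialSum Pool.Agent.Lib.MS.ZS
      rw [Real.exp_log hN0, Nat.floor_natCast]
      refine Finset.sum_congr rfl fun n _ => ?_
      rw [one_mul]
      congr 1
      push_cast
      ring
    simp only [e5]
  rw [e3]
  exact h1

end Pool.Agent.Lib.MP_f9aece_nt_retired.PartialSums
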