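import Mathlib
import Pool.Agent.Lib.MP_f9aece_nt.SharpLowerLib

/-!
# Lower bounds for moments of zeta on the critical line with explicit constants

For `β > 2` and every real `x` the moment `∫₀¹ |ζ(1/2 + ix + iuT)|^β du` is eventually at least
`exp(-6 β (β - 2) log(β + 1/(β - 2))) (log T)^(β²/4)`.  The constant tends to `1 = c(2)` as `β`
decreases to `2`.
-/

set_option autoImplicit false

namespace Pool.Agent.Results.MP_f9aece_nt.SharpLower

open Filter Topology Set Complex MeasureTheory

/-- The moment `E|ζ(1/2 + ix + iωT)|^β` with `ω` uniform on `[0,1]`. -/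
noncomputable def moment (β x T : ℝ) : ℝ :=
  ∫ u in (0 : ℝ)..1, ‖riemannZeta (1 / 2 + I * x + I * u * T)‖ ^ β

/-- **Main result.** An explicit lower bound for all exponents above two. -/
theorem result (β : ℝ) (hβ : 2 < β) (x : ℝ) :
    ∀ᶠ T in atTop,
      Real.exp (-(6 * β * (β - 2) * Real.log (β + 1 / (β - 2)))) * Real.log T ^ (β ^ 2 / 4)
        ≤ moment β x T :=
  Pool.Agent.Lib.MP_f9aece_nt.lower β hβ x

end Pool.Agent.Results.MP_f9aece_nt.SharpLower
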