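import Mathlib
import Pool.Agent.Lib.MP_f9aece_nt_h97.OffH

/-!
# Joint asymptotics of small moments of the zeta function on the critical line

For every real `x`, the quotient of the moment `∫₀¹ |ζ(1/2 + ix + iuT)|^β du` by the conjectured
size `(log T)^(β²/4)` tends to `1` as `β → 0+` and `T → ∞` jointly, with no relation between the
speeds of `β` and `T`.  No hypothesis is used.
-/

set_option autoImplicit false

namespace Pool.Agent.Results.MP_f9aece_nt.SmallMoments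

open Filter Topology Set Complex MeasureTheory

/-- The moment `E|ζ(1/2 + ix + iωT)|^β` with `ω` uniform on `[0,1]`. -/
noncomputable def moment (β x T : ℝ) : ℝ :=
  ∫ u in (0 : ℝ)..1, ‖riemannZeta (1 / 2 + I * x + I * u * T)‖ ^ β

/-- **Main result.** The joint limit of moment over conjectured size as `β → 0+`, `T → ∞`. -/
theorem result (x : ℝ) :
    Tendsto (fun p : ℝ × ℝ => moment p.1 x p.2 / Real.log p.2 ^ (p.1 ^ 2 / 4))
      (𝓝[>] (0 : ℝ) ×ˢ atTop) (𝓝 1) := by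
  rw [Metric.tendsto_nhds]
  intro ε hε
  obtain ⟨β1, hβ1, T1, h1⟩ := Pool.Agent.Lib.MP_f9aece_nt_h97.lower_uniform x (ε / 2) (by positivity)
  obtain ⟨β2, hβ2, T2, h2⟩ := Pool.Agent.Lib.MP_f9aece_nt_h5.upper_uniform x (ε / 2) (by positivity)
  have hb : ∀ᶠ β : ℝ in 𝓝[>] (0 : ℝ), 0 < β ∧ β ≤ β1 ∧ β ≤ β2 := by
    have e1 : ∀ᶠ β : ℝ in 𝓝[>] (0 : ℝ), β ∈ Ioo (0 : ℝ) (min β1 β2) :=
      Ioo_mem_nhdsGT (lt_min hβ1 hβ2)
    filter_upwards [e1] with β hβ
    exact ⟨hβ.1, hβ.2.le.trans (min_le_left _ _), hβ.2.le.trans (min_le_right _ _)⟩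
  have hT : ∀ᶠ T : ℝ in atTop, T1 ≤ T ∧ T2 ≤ T ∧ Real.exp 1 ≤ T := by
    filter_upwards [eventually_ge_atTop T1, eventually_ge_atTop T2,
      eventually_ge_atTop (Real.exp 1)] with T a b c
    exact ⟨a, b, c⟩
  filter_upwards [hb.prod_mk hT] with p hp
  obtain ⟨⟨hβ, hβa, hβb⟩, hTa, hTb, hTc⟩ := hp
  have hlow := h1 p.1 hβ hβa p.2 hTa
  have hup := h2 p.1 hβ hβb p.2 hTb
  have hTp : 0 < p.2 := (Real.exp_pos 1).trans_le hTc
  have hlog : 1 ≤ Real.log p.2 := by rwa [Real.le_log_iff_exp_le hTp]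
  have hL : 0 < Real.log p.2 ^ (p.1 ^ 2 / 4) := by positivity
  have e : Pool.Agent.Lib.MP_f9aece_nt.mom p.1 x p.2 = moment p.1 x p.2 := rfl
  rw [e] at hlow hup
  rw [Real.dist_eq, abs_lt]
  constructor
  · have : 1 - ε / 2 ≤ moment p.1 x p.2 / Real.log p.2 ^ (p.1 ^ 2 / 4) := by
      rwa [le_div_iff₀ hL]
    linarith
  · have : moment p.1 x p.2 / Real.log p.2 ^ (p.1 ^ 2 / 4) ≤ 1 + ε / 2 := by
      rwa [div_le_iff₀ hL]
    linarith

end Pool.Agent.Results.MP_f9aece_nt.SmallMoments
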