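import Mathlib
import Pool.Agent.Lib.MP_f9aece_nt_n4.LineFinal

/-!
# The size of the moments of zeta on the critical line, uniformly for exponents up to four

There are absolute constants `C, c > 0` such that for every real `x` there is `T₀` with
`|log (∫₀¹ |ζ(1/2 + ix + iuT)|^β du / (log T)^(β²/4))| ≤ C (β |β - 2| + (log T)^(-c))`
for all `0 < β ≤ 4` and all `T ≥ T₀`.  No hypothesis is used.
-/

set_option autoImplicit false

namespace Pool.Agent.Results.MP_f9aece_nt.UpToFour

open Complex MeasureTheory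

/-- The moment `E|ζ(1/2 + ix + iωT)|^β` with `ω` uniform on `[0,1]`. -/
noncomputable def moment (β x T : ℝ) : ℝ :=
  ∫ u in (0 : ℝ)..1, ‖riemannZeta (1 / 2 + I * x + I * u * T)‖ ^ β

/-- **Main result.** The moments of zeta have the predicted size up to the factor
`exp(± C (β |β - 2| + (log T)^(-c)))`, uniformly in `0 < β ≤ 4` and `T ≥ T₀(x)`. -/
theorem result :
    ∃ C c : ℝ, 0 < C ∧ 0 < c ∧ ∀ x : ℝ, ∃ T₀ : ℝ, ∀ β T : ℝ, 0 < β → β ≤ 4 → T₀ ≤ T →
      Real.exp (-(C * (β * |β - 2| + Real.log T ^ (-c)))) * Real.log T ^ (β ^ 2 / 4)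
        ≤ moment β x T ∧
      moment β x T
        ≤ Real.exp (C * (β * |β - 2| + Real.log T ^ (-c))) * Real.log T ^ (β ^ 2 / 4) :=
  Pool.Agent.Lib.N4.lineFinal

end Pool.Agent.Results.MP_f9aece_nt.UpToFour
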